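import Pool.Agent.H.MP_c7609e_pr.A

/-! A non-exponential completely monotone function with property (R). -/

open MeasureTheory Set
open scoped ContDiff

namespace Pool.Agent.Results.MP_c7609e_pr.NotOnlyExp

/-- the class of injective completely monotone functions with `L 0 = 1` -/
def CM (L : ℝ → ℝ) : Prop :=
  ContinuousOn L (Ici 0) ∧ ContDiffOn ℝ ∞ L (Ioi 0) ∧ (∀ n : ℕ, ∀ s > 0, 0 ≤ (-1) ^ n * iteratedDeriv n L s) ∧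
    MapsTo L (Ici 0) (Ioc 0 1) ∧ InjOn L (Ici 0) ∧ L 0 = 1

/-- symmetric Levy exponents -/
def CC (ψ : ℝ → ℝ) : Prop :=
  ∃ (σ : ℝ) (ν : Measure ℝ), ∫⁻ t in Ioi 0, ENNReal.ofReal (min 1 (t ^ 2)) ∂ν < ⊤ ∧
    ∀ ξ, ψ ξ = σ ^ 2 * ξ ^ 2 / 2 + ∫ t in Ioi 0, (1 - Real.cos (t * ξ)) ∂ν

/-- property (R) -/
def R (L : ℝ → ℝ) : Prop :=
  ∀ a > 0, ∀ (μ₁ μ₂ : Measure ℝ) (f₁ f₂ : ℝ → ℝ), IsProbabilityMeasure μ₁ → IsProbabilityMeasure μ₂ →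
    (∀ ξ, charFun μ₁ ξ = f₁ ξ ∧ f₁ ξ ∈ L '' Ici 0) → (∀ ξ, charFun μ₂ ξ = f₂ ξ ∧ f₂ ξ ∈ L '' Ici 0) →
    (∀ ξ, L (Function.invFunOn L (Ici 0) (f₁ ξ) + Function.invFunOn L (Ici 0) (f₂ ξ)) = L (a * ξ ^ 2)) →
    ∃ η₁ η₂, CC η₁ ∧ CC η₂ ∧ f₁ = L ∘ η₁ ∧ f₂ = L ∘ η₂

theorem result : ∃ L, CM L ∧ R L ∧ ∀ c > 0, ¬ ∀ s ≥ 0, L s = Real.exp (-(c * s)) :=
  Pool.Agent.H.MP_c7609e_pr.main

end Pool.Agent.Results.MP_c7609e_pr.NotOnlyExp
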